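import Pool.Agent.H34.TAM.Stmts

/-! Row LTP of the board tam (MP_286349_an). -/

set_option autoImplicit false

noncomputable section

namespace Pool.TAM

open Pool.CGR Pool.CGS

namespace LTPx

theorem pe_eq {α A : Type} [Ring A] [Algebra ℂ A] (x : α → A) (P : List α →₀ ℂ) :
    pe x P = Finsupp.linearCombination ℂ (fun w => ev x w) P := by
  rw [Finsupp.linearCombination_apply]; rfl

theorem cp_eq {α A : Type} [DecidableEq α] [Ring A] [Algebra ℂ A] (x : α → A) (i : α)
    (P : List α →₀ ℂ) :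
    cp x i P = Finsupp.linearCombination ℂ (fun w => cg x i w) P := by
  rw [Finsupp.linearCombination_apply]; rfl

theorem pe_single {α A : Type} [Ring A] [Algebra ℂ A] (x : α → A) (w : List α) (r : ℂ) :
    pe x (Finsupp.single w r) = r • ev x w := by
  rw [pe_eq, Finsupp.linearCombination_single]

theorem pe_add {α A : Type} [Ring A] [Algebra ℂ A] (x : α → A) (P Q : List α →₀ ℂ) :
    pe x (P + Q) = pe x P + pe x Q := by
  rw [pe_eq, pe_eq, pe_eq, map_add]

theorem pe_smul {α A : Type} [Ring A] [Algebra ℂ A] (x : α → A) (r : ℂ) (P : List α →₀ ℂ) :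
    pe x (r • P) = r • pe x P := by
  rw [pe_eq, pe_eq, map_smul]

theorem pe_zero {α A : Type} [Ring A] [Algebra ℂ A] (x : α → A) :
    pe x (0 : List α →₀ ℂ) = 0 := by
  rw [pe_eq, map_zero]

theorem lt_zero {α : Type} (I : Set α) : Lt I (0 : List α →₀ ℂ) := by
  intro w hw
  simp at hw

theorem lt_add {α : Type} {I : Set α} {P Q : List α →₀ ℂ} (hP : Lt I P) (hQ : Lt I Q) :
    Lt I (P + Q) := by
  classical
  intro w hw
  rcases Finset.mem_union.1 (Finsupp.support_add hw) with h | h
  · exact hP w h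
  · exact hQ w h

theorem lt_smul {α : Type} {I : Set α} {P : List α →₀ ℂ} (r : ℂ) (hP : Lt I P) :
    Lt I (r • P) := by
  intro w hw
  exact hP w (Finsupp.support_smul hw)

theorem lt_single {α : Type} {I : Set α} {w : List α} (r : ℂ) (hw : ∀ j ∈ w, j ∈ I) :
    Lt I (Finsupp.single w r) := by
  intro v hv
  have := Finsupp.support_single_subset hv
  rw [Finset.mem_singleton] at this
  rw [this]
  exact hw

theorem sum_ex {α A ι : Type} [Ring A] [Algebra ℂ A] (x : α → A) (I : Set α) (s : Finset ι)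
    (f : ι → A) (h : ∀ k ∈ s, ∃ R : List α →₀ ℂ, Lt I R ∧ pe x R = f k) :
    ∃ R : List α →₀ ℂ, Lt I R ∧ pe x R = ∑ k ∈ s, f k := by
  classical
  induction s using Finset.induction_on with
  | empty => exact ⟨0, lt_zero I, by rw [pe_zero, Finset.sum_empty]⟩
  | insert a t ha ih =>
    obtain ⟨R₁, l₁, h₁⟩ := ih fun k hk => h k (Finset.mem_insert_of_mem hk)
    obtain ⟨R₂, l₂, h₂⟩ := h a (Finset.mem_insert_self a t)
    exact ⟨R₂ + R₁, lt_add l₂ l₁, by rw [pe_add, h₁, h₂, Finset.sum_insert ha]⟩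

theorem cg_ex {α A : Type} [DecidableEq α] [Ring A] [Algebra ℂ A] (x : α → A) (I : Set α) (i : α)
    (w : List α) (hw : ∀ j ∈ w, j ∈ I) : ∃ R : List α →₀ ℂ, Lt I R ∧ pe x R = cg x i w := by
  unfold cg
  apply sum_ex
  intro k _
  split_ifs with hk
  · refine ⟨Finsupp.single (w.drop (k + 1) ++ w.take k) 1, lt_single 1 ?_, by
      rw [pe_single, one_smul]⟩
    intro j hj
    rcases List.mem_append.1 hj with h | h
    · exact hw j (List.mem_of_mem_drop h)
    · exact hw j (List.mem_of_mem_take h)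
  · exact ⟨0, lt_zero I, pe_zero x⟩

theorem cp_ex {α A : Type} [DecidableEq α] [Ring A] [Algebra ℂ A] (x : α → A) (I : Set α) (i : α)
    (P : List α →₀ ℂ) (hP : Lt I P) : ∃ R : List α →₀ ℂ, Lt I R ∧ pe x R = cp x i P := by
  unfold cp Finsupp.sum
  apply sum_ex
  intro w hw
  obtain ⟨R, hR, h⟩ := cg_ex x I i w (hP w hw)
  exact ⟨P w • R, lt_smul _ hR, by rw [pe_smul, h]⟩

theorem ev_append {α A : Type} [Ring A] (x : α → A) (u v : List α) :
    ev x (u ++ v) = ev x u * ev x v := by
  unfold ev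
  rw [List.map_append, List.prod_append]

theorem star_ev {α A : Type} [CStarAlgebra A] (x : α → A) (hx : ∀ i, IsSelfAdjoint (x i))
    (w : List α) : star (ev x w) = ev x w.reverse := by
  induction w with
  | nil => simp [ev]
  | cons i w ih =>
    have h1 : ev x (i :: w) = x i * ev x w := by
      unfold ev
      rw [List.map_cons, List.prod_cons]
    have h2 : ev x [i] = x i := by simp [ev]
    rw [h1, star_mul, ih, (hx i).star_eq, List.reverse_cons, ev_append, h2]

theorem cg_zero {α A : Type} [DecidableEq α] [Ring A] [Algebra ℂ A] (x : α → A) (i : α)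
    (w : List α) (hw : i ∉ w) : cg x i w = 0 := by
  unfold cg
  apply Finset.sum_eq_zero
  intro k _
  rw [if_neg]
  intro h
  exact hw (List.mem_of_getElem? h)

end LTPx

theorem ltp_thm : LTPStmt := by
  intro m A _ x I
  refine ⟨?_, ?_, ?_, ?_⟩
  · intro i P hP
    exact LTPx.cp_ex x I i P hP
  · intro hx P hP
    unfold pe Finsupp.sum
    rw [star_sum]
    obtain ⟨R, hR, h⟩ := LTPx.sum_ex x I P.support (fun w => star (P w • ev x w)) (by
      intro w hw
      refine ⟨Finsupp.single w.reverse (star (P w)), LTPx.lt_single _ ?_, ?_⟩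
      · intro j hj
        exact hP w hw j (List.mem_reverse.1 hj)
      · rw [LTPx.pe_single, star_smul, LTPx.star_ev x hx])
    exact ⟨R, hR, h⟩
  · intro i P hP hi
    unfold cp Finsupp.sum
    apply Finset.sum_eq_zero
    intro w hw
    show P w • cg x i w = 0
    rw [LTPx.cg_zero x i w (fun h => hi (hP w hw i h)), smul_zero]
  · intro i P Q
    rw [LTPx.cp_eq, LTPx.cp_eq, LTPx.cp_eq, map_add]

end Pool.TAM
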